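import Pool.Agent.Q191.RT.Orbit

/-!
# MP_9297ae_an, Q1: yes

There are `B > 0` and a positive solution of `x_{n+1} = x_{n-2} / (B x_n + x_{n-2})` which
converges neither to the equilibrium nor to any periodic solution.
Here `x 0, x 1, x 2` are `x_{-2}, x_{-1}, x_0`.
-/

set_option autoImplicit false

open Filter Topology

namespace Pool.Agent.Results.MP_9297ae_an.Nonconvergent

/-- For every real `t ≥ 10 ^ 7` the equation with `B = 2 ^ t` has a positive solution which
converges neither to the equilibrium `1 / (B + 1)` nor to any periodic sequence. -/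
theorem result (t : ℝ) (ht : 10000000 ≤ t) :
    ∃ B : ℝ, 0 < B ∧ B = (2 : ℝ) ^ t ∧
      ∃ x : ℕ → ℝ, (∀ n, 0 < x n) ∧
        (∀ n, x (n + 3) = x n / (B * x (n + 2) + x n)) ∧
        ¬ Tendsto x atTop (𝓝 (1 / (B + 1))) ∧
        ∀ p : ℕ → ℝ, (∃ k, 1 ≤ k ∧ ∀ n, p (n + k) = p n) →
          ¬ Tendsto (fun n => x n - p n) atTop (𝓝 0) := by
  obtain ⟨x, h1, h2, h4, h5⟩ := Pool.Agent.Q191.RT.final ht
  exact ⟨(2 : ℝ) ^ t, by positivity, rfl, x, h1, h2, h4 _, h5⟩

end Pool.Agent.Results.MP_9297ae_an.Nonconvergent
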